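import Mathlib

/-!
Helpers for the counterexample `n(R) = 2`, `p = 3`.
-/

set_option autoImplicit false

namespace Pool.Agent.Q113.MatU

/-- The underlying space of the Heisenberg algebra. -/
abbrev F3 := ZMod 3

instance : Fact (Nat.Prime 3) := ⟨Nat.prime_three⟩

/-- The Heisenberg algebra over `ZMod 3`, with coordinates `(x, y, z)`. -/
structure Heis where
  x : F3
  y : F3
  z : F3
deriving DecidableEq

namespace Heis

theorem ext' {a b : Heis} (h1 : a.x = b.x) (h2 : a.y = b.y) (h3 : a.z = b.z) : a = b := by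
  cases a; cases b; simp_all

instance : Zero Heis := ⟨⟨0, 0, 0⟩⟩
instance : Add Heis := ⟨fun a b => ⟨a.x + b.x, a.y + b.y, a.z + b.z⟩⟩
instance : Neg Heis := ⟨fun a => ⟨-a.x, -a.y, -a.z⟩⟩
instance : Sub Heis := ⟨fun a b => ⟨a.x - b.x, a.y - b.y, a.z - b.z⟩⟩
instance : SMul F3 Heis := ⟨fun t a => ⟨t * a.x, t * a.y, t * a.z⟩⟩
instance : SMul ℕ Heis := ⟨fun t a => ⟨t • a.x, t • a.y, t • a.z⟩⟩
instance : SMul ℤ Heis := ⟨fun t a => ⟨t • a.x, t • a.y, t • a.z⟩⟩

@[simp] theorem zero_x : (0 : Heis).x = 0 := rfl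
@[simp] theorem zero_y : (0 : Heis).y = 0 := rfl
@[simp] theorem zero_z : (0 : Heis).z = 0 := rfl
@[simp] theorem add_x (a b : Heis) : (a + b).x = a.x + b.x := rfl
@[simp] theorem add_y (a b : Heis) : (a + b).y = a.y + b.y := rfl
@[simp] theorem add_z (a b : Heis) : (a + b).z = a.z + b.z := rfl
@[simp] theorem neg_x (a : Heis) : (-a).x = -a.x := rfl
@[simp] theorem neg_y (a : Heis) : (-a).y = -a.y := rfl
@[simp] theorem neg_z (a : Heis) : (-a).z = -a.z := rfl
@[simp] theorem sub_x (a b : Heis) : (a - b).x = a.x - b.x := rfl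
@[simp] theorem sub_y (a b : Heis) : (a - b).y = a.y - b.y := rfl
@[simp] theorem sub_z (a b : Heis) : (a - b).z = a.z - b.z := rfl
@[simp] theorem smul_x (t : F3) (a : Heis) : (t • a).x = t * a.x := rfl
@[simp] theorem smul_y (t : F3) (a : Heis) : (t • a).y = t * a.y := rfl
@[simp] theorem smul_z (t : F3) (a : Heis) : (t • a).z = t * a.z := rfl

/-- coordinates -/
def toProd (a : Heis) : F3 × F3 × F3 := (a.x, a.y, a.z)

theorem toProd_inj : Function.Injective toProd := by
  intro a b h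
  simp only [toProd, Prod.mk.injEq] at h
  exact ext' h.1 h.2.1 h.2.2

instance : AddCommGroup Heis :=
  Function.Injective.addCommGroup toProd toProd_inj rfl (fun _ _ => rfl) (fun _ => rfl)
    (fun _ _ => rfl) (fun _ _ => rfl) (fun _ _ => rfl)

instance : Module F3 Heis :=
  Function.Injective.module F3 ⟨⟨toProd, rfl⟩, fun _ _ => rfl⟩ toProd_inj (fun _ _ => rfl)

instance : Bracket Heis Heis := ⟨fun a b => ⟨0, 0, a.x * b.y - a.y * b.x⟩⟩

@[simp] theorem br_x (a b : Heis) : ⁅a, b⁆.x = 0 := rfl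
@[simp] theorem br_y (a b : Heis) : ⁅a, b⁆.y = 0 := rfl
@[simp] theorem br_z (a b : Heis) : ⁅a, b⁆.z = a.x * b.y - a.y * b.x := rfl

instance : LieRing Heis where
  add_lie a b c := by apply ext' <;> simp <;> ring
  lie_add a b c := by apply ext' <;> simp <;> ring
  lie_self a := by apply ext' <;> simp <;> ring
  leibniz_lie a b c := by apply ext' <;> simp

instance : LieAlgebra F3 Heis where
  lie_smul t a b := by apply ext' <;> simp <;> ring

/-- the `3`-map -/
def f (a : Heis) : Heis := ⟨0, 0, a.z⟩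

theorem f_smul (t : F3) (a : Heis) : f (t • a) = t ^ 3 • f a := by
  have h : t ^ 3 = t := ZMod.pow_card t
  rw [h]; apply ext' <;> simp [f]

theorem f_ad (a b : Heis) : (LieAlgebra.ad F3 Heis a ^ 3) b = ⁅f a, b⁆ := by
  apply ext' <;> simp [f, pow_succ, LieAlgebra.ad_apply]

theorem f_add (a b : Heis) : f (a + b) = f a + f b := by
  apply ext' <;> simp [f]

end Heis

open Heis

/-- Jacobson's formula in a ring of characteristic three. -/
theorem jac {A : Type*} [Ring A] (h3 : (3 : A) = 0) (a b : A) :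
    (a + b) ^ 3 - a ^ 3 - b ^ 3 = ⁅a, ⁅a, b⁆⁆ + ⁅b, ⁅b, a⁆⁆ := by
  have h : (a + b) ^ 3 - a ^ 3 - b ^ 3 = ⁅a, ⁅a, b⁆⁆ + ⁅b, ⁅b, a⁆⁆
      + 3 * (a * b * a) + 3 * (b * a * b) := by
    simp only [Ring.lie_def]; noncomm_ring
  rw [h, h3]; simp

/-- matrix units from `a b - b a = c` etc. -/
structure Dat (A : Type*) [Ring A] where
  a : A
  b : A
  c : A
  h3 : (3 : A) = 0
  ab : a * b = b * a + c
  ac : a * c = c * a
  bc : b * c = c * b
  a3 : a * a * a = 0
  b3 : b * b * b = 0
  c3 : c * c * c = c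

namespace Dat

variable {A : Type*} [Ring A] (D : Dat A)

/-- central idempotent -/
def e : A := -(D.c * D.c + D.c)

theorem ce : D.c * D.e = D.e := by
  have := D.c3
  simp only [e]
  rw [mul_neg, mul_add, ← mul_assoc, this, add_comm]

theorem ea : D.e * D.a = D.a * D.e := by
  have := D.ac
  simp only [e]
  rw [neg_mul, mul_neg, add_mul, mul_add, ← this, mul_assoc, ← this, ← mul_assoc, ← this, mul_assoc]

theorem eb : D.e * D.b = D.b * D.e := by
  have := D.bc
  simp only [e]
  rw [neg_mul, mul_neg, add_mul, mul_add, ← this, mul_assoc, ← this, ← mul_assoc, ← this, mul_assoc]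

/-- rank one idempotent -/
def P : A := -(D.a * D.a * D.b * D.b * D.e)

theorem aP : D.a * D.P = 0 := by
  have h : D.a * D.P = -((D.a * D.a * D.a) * D.b * D.b * D.e) := by simp only [P]; noncomm_ring
  rw [h, D.a3]; simp

theorem Pb : D.P * D.b = 0 := by
  have h : D.P * D.b = -(D.a * D.a * D.b * D.b * (D.e * D.b)) := by simp only [P]; noncomm_ring
  rw [h, D.eb]
  have h : -(D.a * D.a * D.b * D.b * (D.b * D.e)) = -(D.a * D.a * (D.b * D.b * D.b) * D.e) := by
    noncomm_ring
  rw [h, D.b3]; simp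

theorem cP : D.c * D.P = D.P := by
  have h1 : Commute D.c D.a := D.ac.symm
  have h2 : Commute D.c D.b := D.bc.symm
  have h : Commute D.c (D.a * D.a * D.b * D.b) :=
    ((h1.mul_right h1).mul_right h2).mul_right h2
  have h' : D.c * (D.a * D.a * D.b * D.b * D.e) = D.a * D.a * D.b * D.b * (D.c * D.e) := by
    rw [← mul_assoc, h.eq, mul_assoc]
  rw [P, mul_neg, h', D.ce]

theorem eP : D.e * D.P = D.P := by
  have h := D.cP
  have h' : (-(D.c * D.c + D.c)) * D.P = -(D.c * (D.c * D.P) + D.c * D.P) := by noncomm_ring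
  rw [e, h', h, h]
  have h4 : -(D.P + D.P) = D.P - 3 * D.P := by noncomm_ring
  rw [h4, D.h3]; simp

theorem PP : D.P * D.P = D.P := by
  have h1 := D.aP
  have h2 := D.cP
  have hab := D.ab
  -- b b P etc.
  have k1 : D.a * (D.b * D.P) = D.P := by
    rw [← mul_assoc, hab, add_mul, mul_assoc, h1, mul_zero, zero_add, h2]
  have k2 : D.a * (D.b * (D.b * D.P)) = D.b * D.P + D.b * D.P := by
    rw [← mul_assoc D.a, hab, add_mul, mul_assoc, k1, ← mul_assoc D.c, ← D.bc, mul_assoc, h2]
  have k3 : D.a * (D.a * (D.b * (D.b * D.P))) = D.P + D.P := by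
    rw [k2, mul_add, k1]
  have h : D.P * D.P = -(D.a * (D.a * (D.b * (D.b * (D.e * D.P))))) := by
    nth_rewrite 1 [P]
    rw [neg_mul]
    simp only [mul_assoc]
  rw [h, D.eP, k3]
  have h4 : -(D.P + D.P) = D.P - 3 * D.P := by noncomm_ring
  rw [h4, D.h3]; simp

theorem PabP : D.P * D.a * D.b * D.P = D.P := by
  have h : D.P * D.a * D.b * D.P = D.P * (D.a * D.b) * D.P := by noncomm_ring
  rw [h, D.ab]
  have h : D.P * (D.b * D.a + D.c) * D.P = (D.P * D.b) * (D.a * D.P) + D.P * (D.c * D.P) := by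
    noncomm_ring
  rw [h, D.Pb, D.cP, D.PP]; simp

/-- columns -/
def u (i : Fin 2) : A := if i = 0 then D.P else D.b * D.P

/-- rows -/
def v (i : Fin 2) : A := if i = 0 then D.P else D.P * D.a

theorem vu (i j : Fin 2) : D.v i * D.u j = if i = j then D.P else 0 := by
  fin_cases i <;> fin_cases j
  · simp [u, v, D.PP]
  · simp only [u, v, Fin.zero_eta, if_true, Fin.mk_one]
    rw [if_neg (by decide), ← mul_assoc, D.Pb]; simp
  · simp only [u, v, Fin.zero_eta, if_true, Fin.mk_one]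
    rw [if_neg (by decide), mul_assoc, D.aP]; simp
  · have h : D.v 1 * D.u 1 = D.P * D.a * D.b * D.P := by
      simp [u, v, mul_assoc]
    simpa using h.trans D.PabP

theorem Pv (i : Fin 2) : D.P * D.v i = D.v i := by
  fin_cases i
  · simp [v, D.PP]
  · simp only [v, Fin.mk_one]
    rw [if_neg (by decide), ← mul_assoc, D.PP]

/-- matrix units -/
def E (i j : Fin 2) : A := D.u i * D.v j

theorem EE (i j k l : Fin 2) : D.E i j * D.E k l = if j = k then D.E i l else 0 := by
  have h : D.E i j * D.E k l = D.u i * (D.v j * D.u k) * D.v l := by simp only [E, mul_assoc]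
  rw [h, D.vu]
  split_ifs with hjk
  · rw [mul_assoc, D.Pv, E]
  · simp

end Dat

end Pool.Agent.Q113.MatU
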