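import Mathlib
import Pool.Agent.Q113.MatU

set_option autoImplicit false

namespace Pool.Agent.Q113.MatU

open Heis

abbrev M2 := Matrix (Fin 2) (Fin 2) F3
abbrev M3 := Matrix (Fin 3) (Fin 3) F3

section psi

variable {A : Type} [Ring A] [Algebra F3 A] (D : Dat A)

/-- the non-unital homomorphism from two by two matrices -/
noncomputable def psi : M2 →ₙₐ[F3] A where
  toFun M := ∑ i, ∑ j, M i j • D.E i j
  map_smul' t M := by
    simp only [Matrix.smul_apply, smul_eq_mul, mul_smul, Finset.smul_sum, MonoidHom.id_apply]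
  map_zero' := by simp
  map_add' M N := by
    simp only [Matrix.add_apply, add_smul, Finset.sum_add_distrib]
  map_mul' M N := by
    simp only [Matrix.mul_apply, Finset.sum_mul, Finset.mul_sum, smul_mul_assoc, mul_smul_comm,
      D.EE, Finset.sum_smul, mul_smul]
    simp only [Fin.sum_univ_two]
    simp [smul_comm (N _ _) (M _ _)]
    abel

theorem psi_list (l : List M2) (hl : l ≠ []) : psi D l.prod = (l.map (psi D)).prod := by
  induction l with
  | nil => exact absurd rfl hl
  | cons a l ih =>
    by_cases h : l = []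
    · subst h; simp
    · rw [List.prod_cons, List.map_cons, List.prod_cons, map_mul, ih h]

theorem psi_pow (M : M2) (n : ℕ) (hn : 1 ≤ n) : psi D (M ^ n) = (psi D M) ^ n := by
  induction n with
  | zero => omega
  | succ n ih =>
    rcases Nat.eq_zero_or_pos n with h | h
    · subst h; simp
    · rw [pow_succ, map_mul, ih h, pow_succ]

end psi

/-- `S_4` on two by two matrices -/
theorem S4_zero (M : Fin 4 → M2) :
    ∑ σ : Equiv.Perm (Fin 4), ((Equiv.Perm.sign σ : ℤˣ) : ℤ) • (List.ofFn fun i => M (σ i)).prod
      = 0 := by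
  let g := MultilinearMap.alternatization (MultilinearMap.mkPiAlgebraFin F3 4 M2)
  have hg : ∀ v : Fin 4 → M2, g v = ∑ σ : Equiv.Perm (Fin 4),
      ((Equiv.Perm.sign σ : ℤˣ) : ℤ) • (List.ofFn fun i => v (σ i)).prod := by
    intro v
    simp only [g, MultilinearMap.alternatization_apply, MultilinearMap.mkPiAlgebraFin_apply,
      MultilinearMap.domDomCongr_apply, MultilinearMap.smul_apply]
    rfl
  rw [← hg]
  let b0 : Module.Basis (Fin 2 × Fin 2) F3 M2 := Matrix.stdBasis F3 (Fin 2) (Fin 2)
  let b : Module.Basis (Fin 4) F3 M2 := b0.reindex finProdFinEquiv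
  have hb : g b = 0 := by
    rw [hg]
    have hbv : ∀ i, b i = ![!![1, 0; 0, 0], !![0, 1; 0, 0], !![0, 0; 1, 0], !![0, 0; 0, 1]] i := by
      intro i
      fin_cases i <;>
      · simp only [b, Module.Basis.reindex_apply]
        ext k l
        fin_cases k <;> fin_cases l <;>
          simp [b0, Matrix.stdBasis_eq_single, finProdFinEquiv, Fin.divNat, Fin.modNat]
    simp only [hbv]
    decide +kernel
  have hg0 : g = 0 := by
    refine Module.Basis.ext_alternating b fun v hv => ?_
    have hv' : Function.Bijective v := Finite.injective_iff_bijective.mp hv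
    have h1 : (fun i => b (v i)) = b ∘ (Equiv.ofBijective v hv') := rfl
    rw [h1, g.map_perm, hb]
    simp
  rw [hg0]; rfl

theorem pow26 : ∀ M : M2, M ^ 26 = M ^ 2 := by
  decide +kernel

end Pool.Agent.Q113.MatU
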