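import Mathlib
import Pool.Agent.Q113.MatU2

set_option autoImplicit false

namespace Pool.Agent.Q113.MatU

open Pool.Agent.Q113.MatU.Heis

attribute [local instance 100] LieRing.ofAssociativeRing

/-- the restricted enveloping algebra of the Heisenberg algebra -/
abbrev RU : Type := RingQuot (fun a b : UniversalEnvelopingAlgebra F3 Heis =>
        ∃ x : Heis, a = UniversalEnvelopingAlgebra.ι F3 x ^ 3 ∧ b = UniversalEnvelopingAlgebra.ι F3 (f x))

theorem three_zero (A : Type) [Ring A] [Algebra F3 A] : (3 : A) = 0 := by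
  have h : (3 : F3) = 0 := by decide
  have := congrArg (algebraMap F3 A) h
  rwa [map_ofNat, map_zero] at this

/-- generators -/
noncomputable def gg (x : Heis) : RU :=
  RingQuot.mkAlgHom F3 _ (UniversalEnvelopingAlgebra.ι F3 x)

theorem gg_lie (x y : Heis) : gg x * gg y - gg y * gg x = gg ⁅x, y⁆ := by
  have h : UniversalEnvelopingAlgebra.ι F3 ⁅x, y⁆ =
      UniversalEnvelopingAlgebra.ι F3 x * UniversalEnvelopingAlgebra.ι F3 y -
      UniversalEnvelopingAlgebra.ι F3 y * UniversalEnvelopingAlgebra.ι F3 x := by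
    rw [LieHom.map_lie, Ring.lie_def]
  simp only [gg]
  rw [h, map_sub, map_mul, map_mul]

theorem gg_zero : gg 0 = 0 := by simp [gg]

theorem gg_cube (x : Heis) : gg x * gg x * gg x = gg (f x) := by
  simp only [gg]
  rw [← map_mul, ← map_mul, ← pow_two, ← pow_succ]
  exact RingQuot.mkAlgHom_rel F3 ⟨x, rfl, rfl⟩

theorem gg_comm {x y : Heis} (h : ⁅x, y⁆ = 0) : gg x * gg y = gg y * gg x := by
  have h1 := gg_lie x y
  rw [h, gg_zero] at h1
  exact sub_eq_zero.mp h1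

noncomputable def D : Dat RU where
  a := gg ⟨1, 0, 0⟩
  b := gg ⟨0, 1, 0⟩
  c := gg ⟨0, 0, 1⟩
  h3 := three_zero RU
  ab := by
    have h := gg_lie ⟨1, 0, 0⟩ ⟨0, 1, 0⟩
    have h2 : ⁅(⟨1, 0, 0⟩ : Heis), (⟨0, 1, 0⟩ : Heis)⁆ = ⟨0, 0, 1⟩ := by decide
    rw [h2] at h
    rw [← h]; abel
  ac := gg_comm (by decide)
  bc := gg_comm (by decide)
  a3 := (gg_cube _).trans (by rw [show f (⟨1, 0, 0⟩ : Heis) = 0 by decide, gg_zero])
  b3 := (gg_cube _).trans (by rw [show f (⟨0, 1, 0⟩ : Heis) = 0 by decide, gg_zero])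
  c3 := (gg_cube _).trans (by rw [show f (⟨0, 0, 1⟩ : Heis) = ⟨0, 0, 1⟩ by decide])

/-- the three dimensional representation -/
def rep0 (x : Heis) : M3 := !![x.z, x.x, 0; x.y, x.z, 2 * x.x; 0, x.y, x.z]

attribute [local instance 100] LieRing.ofAssociativeRing

theorem rep0_lie : ∀ a b c a' b' c' : F3, rep0 ⁅(⟨a, b, c⟩ : Heis), (⟨a', b', c'⟩ : Heis)⁆ =
    rep0 ⟨a, b, c⟩ * rep0 ⟨a', b', c'⟩ - rep0 ⟨a', b', c'⟩ * rep0 ⟨a, b, c⟩ := by
  decide +kernel

def rep : Heis →ₗ⁅F3⁆ M3 where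
  toFun := rep0
  map_add' x y := by
    ext i j; fin_cases i <;> fin_cases j <;> simp [rep0] ; ring
  map_smul' t x := by
    ext i j; fin_cases i <;> fin_cases j <;> simp [rep0] ; ring
  map_lie' := by
    rintro ⟨a, b, c⟩ ⟨a', b', c'⟩
    exact rep0_lie a b c a' b' c'

theorem rep_cube0 : ∀ a b c : F3, rep0 ⟨a, b, c⟩ ^ 3 = rep0 (f ⟨a, b, c⟩) := by
  decide +kernel

theorem rep_cube (x : Heis) : rep0 x ^ 3 = rep0 (f x) := rep_cube0 x.x x.y x.z

noncomputable def Rep : RU →ₐ[F3] M3 :=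
  RingQuot.liftAlgHom F3 ⟨UniversalEnvelopingAlgebra.lift F3 rep, by
    rintro a b ⟨x, rfl, rfl⟩
    rw [map_pow, UniversalEnvelopingAlgebra.lift_ι_apply, UniversalEnvelopingAlgebra.lift_ι_apply]
    exact rep_cube x⟩

theorem Rep_gg (x : Heis) : Rep (gg x) = rep0 x := by
  simp only [Rep, gg]
  rw [RingQuot.liftAlgHom_mkAlgHom_apply, UniversalEnvelopingAlgebra.lift_ι_apply]
  rfl

theorem Rep_E (i : Fin 2) : Rep (D.E i i) =
    (Matrix.single (Fin.castSucc i) (Fin.castSucc i) 1 : M3) := by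
  fin_cases i
  · simp only [Dat.E, Dat.u, Dat.v, Dat.P, Dat.e, D, Rep_gg, map_mul, map_neg, map_add, if_true,
      Fin.zero_eta]
    decide +kernel
  · simp only [Dat.E, Dat.u, Dat.v, Dat.P, Dat.e, D, Rep_gg, map_mul, map_neg, map_add,
      Fin.mk_one, if_neg (show ¬ (1 : Fin 2) = 0 by decide)]
    decide +kernel

theorem Rep_psi : Rep (psi D (Matrix.single 0 0 1 - Matrix.single 1 1 1)) =
    Matrix.diagonal ![1, -1, 0] := by
  have h : psi D (Matrix.single 0 0 1 - Matrix.single 1 1 1) = D.E 0 0 - D.E 1 1 := by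
    change ∑ i, ∑ j, (Matrix.single 0 0 1 - Matrix.single 1 1 1 : M2) i j • D.E i j = _
    simp [Fin.sum_univ_two, Matrix.single]
    abel
  rw [h, map_sub, Rep_E, Rep_E]
  decide +kernel


theorem jacU (x y : Heis) : UniversalEnvelopingAlgebra.ι F3 (f (x + y)) -
      UniversalEnvelopingAlgebra.ι F3 (f x) - UniversalEnvelopingAlgebra.ι F3 (f y)
      = (UniversalEnvelopingAlgebra.ι F3 x + UniversalEnvelopingAlgebra.ι F3 y) ^ 3
        - UniversalEnvelopingAlgebra.ι F3 x ^ 3 - UniversalEnvelopingAlgebra.ι F3 y ^ 3 := by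
  rw [jac (three_zero _), ← LieHom.map_lie, ← LieHom.map_lie, ← LieHom.map_lie, ← LieHom.map_lie,
    f_add]
  have h1 : ⁅x, ⁅x, y⁆⁆ = 0 := by apply ext' <;> simp
  have h2 : ⁅y, ⁅y, x⁆⁆ = 0 := by apply ext' <;> simp
  rw [h1, h2]
  simp

end Pool.Agent.Q113.MatU
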